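import Pool.Agent.BCS.Stmts4
import Pool.Agent.Helper17_BCS.CNS

/-!
# Row MCT of squad BCS: the mean curvature is a continuous function of the 1-jet of the metric
-/

noncomputable section

open scoped ContDiff Topology
open Set

namespace Pool.Agent.BCS.H45

open Pool.Agent.BCS
open Pool.Agent.SecondKind (Coord pd inv christoffel)

variable {m n : ℕ}

/-- inverse matrix entries are smooth where the determinant does not vanish -/
theorem cda_inv (M₀ : Fin n → Fin n → ℝ) (h0 : (Matrix.of M₀).det ≠ 0) (k l : Fin n) :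
    ContDiffAt ℝ ∞ (fun M : Fin n → Fin n → ℝ => (Matrix.of M)⁻¹ k l) M₀ := by
  have e : (fun M : Fin n → Fin n → ℝ => (Matrix.of M)⁻¹ k l) = fun M => ((Matrix.of M).det)⁻¹ *
      (Matrix.updateRow (Matrix.of M) l (Pi.single k 1)).det := by
    funext t
    rw [Matrix.inv_def, Matrix.smul_apply, Matrix.adjugate_apply, smul_eq_mul,
      Ring.inverse_eq_inv']
  have hdet : ∀ F : (Fin n → Fin n → ℝ) → Matrix (Fin n) (Fin n) ℝ,
      (∀ i j, ContDiff ℝ ∞ (fun t => F t i j)) → ContDiff ℝ ∞ (fun t => (F t).det) := by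
    intro F hF
    have e2 : (fun t => (F t).det) = fun t => ∑ σ : Equiv.Perm (Fin n),
        ((Equiv.Perm.sign σ : ℤ) : ℝ) * ∏ i, F t (σ i) i := by
      funext t
      rw [Matrix.det_apply']
    rw [e2]
    exact ContDiff.sum fun σ _ => contDiff_const.mul (contDiff_prod fun i _ => hF _ _)
  have hc : ∀ i j : Fin n, ContDiff ℝ ∞ (fun M : Fin n → Fin n → ℝ => M i j) := fun i j =>
    (contDiff_apply_apply ℝ ℝ i j)
  rw [e]
  have h1 : ContDiff ℝ ∞ (fun M : Fin n → Fin n → ℝ => (Matrix.of M).det) :=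
    hdet (fun M => Matrix.of M) fun i j => hc i j
  refine (h1.contDiffAt.inv h0).mul (ContDiff.contDiffAt (hdet _ fun i j => ?_))
  by_cases hi : i = l
  · subst hi
    simp only [Matrix.updateRow_self]
    exact contDiff_const
  · simp only [Matrix.updateRow_ne hi, Matrix.of_apply]
    exact hc i j

theorem cd_drho (j : Fin (m + 2)) : ContDiff ℝ ∞ (fun z : Fin (m + 2) → ℝ => drho z j) := by
  unfold drho
  split_ifs
  · exact contDiff_apply ℝ ℝ _
  · exact contDiff_apply ℝ ℝ _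
  · exact contDiff_const

/-- the normal as a function of the matrix of the metric and the point -/
def Ph (k : Fin (m + 2)) (p : (Fin (m + 2) → Fin (m + 2) → ℝ) × (Fin (m + 2) → ℝ)) : ℝ :=
  (∑ j, (Matrix.of p.1)⁻¹ k j * drho p.2 j) /
    √(∑ i, ∑ j, (Matrix.of p.1)⁻¹ i j * drho p.2 i * drho p.2 j)

theorem inv_pos' {A : Matrix (Fin n) (Fin n) ℝ}
    (hA : ∀ v : Fin n → ℝ, v ≠ 0 → 0 < ∑ i, ∑ j, A i j * v i * v j) (w : Fin n → ℝ) (hw : w ≠ 0) :
    0 < ∑ i, ∑ j, A⁻¹ i j * w i * w j := by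
  have hd : A.det ≠ 0 := H17.det_ne hA
  have hu : IsUnit A.det := isUnit_iff_ne_zero.mpr hd
  set v : Fin n → ℝ := A⁻¹.mulVec w with hv
  have hAv : A.mulVec v = w := by
    rw [hv, Matrix.mulVec_mulVec, Matrix.mul_nonsing_inv _ hu, Matrix.one_mulVec]
  have hv0 : v ≠ 0 := by
    intro h
    rw [h, Matrix.mulVec_zero] at hAv
    exact hw hAv.symm
  have h1 := hA v hv0
  have e1 : ∑ i, ∑ j, A i j * v i * v j = ∑ i, v i * w i := by
    refine Finset.sum_congr rfl fun i _ => ?_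
    have : w i = ∑ j, A i j * v j := by
      conv_lhs => rw [← hAv]
      simp [Matrix.mulVec, dotProduct]
    rw [this, Finset.mul_sum]
    exact Finset.sum_congr rfl fun j _ => by ring
  have e2 : ∑ i, ∑ j, A⁻¹ i j * w i * w j = ∑ i, v i * w i := by
    refine Finset.sum_congr rfl fun i _ => ?_
    have : v i = ∑ j, A⁻¹ i j * w j := by
      rw [hv]
      simp [Matrix.mulVec, dotProduct]
    rw [this, Finset.sum_mul]
    exact Finset.sum_congr rfl fun j _ => by ring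
  rw [e2, ← e1]
  exact h1

theorem cda_Ph (k : Fin (m + 2)) (a : Fin (m + 2) → Fin (m + 2) → ℝ) (y : Fin (m + 2) → ℝ)
    (hA : ∀ v : Fin (m + 2) → ℝ, v ≠ 0 → 0 < ∑ i, ∑ j, a i j * v i * v j)
    (hy : y 0 ^ 2 + y 1 ^ 2 = 1) : ContDiffAt ℝ ∞ (Ph k) (a, y) := by
  have hd : (Matrix.of a).det ≠ 0 := H17.det_ne (A := Matrix.of a) hA
  have hi : ∀ k l, ContDiffAt ℝ ∞ (fun p : (Fin (m + 2) → Fin (m + 2) → ℝ) × (Fin (m + 2) → ℝ) =>
      (Matrix.of p.1)⁻¹ k l) (a, y) := fun k l =>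
    ContDiffAt.comp (a, y) (g := fun M : Fin (m + 2) → Fin (m + 2) → ℝ => (Matrix.of M)⁻¹ k l)
      (f := fun p : (Fin (m + 2) → Fin (m + 2) → ℝ) × (Fin (m + 2) → ℝ) => p.1)
      (cda_inv a hd k l) contDiffAt_fst
  have hr : ∀ j, ContDiffAt ℝ ∞ (fun p : (Fin (m + 2) → Fin (m + 2) → ℝ) × (Fin (m + 2) → ℝ) =>
      drho p.2 j) (a, y) := fun j => ((cd_drho j).comp contDiff_snd).contDiffAt
  have hw : (fun j => drho y j) ≠ 0 := by
    intro h
    have h0 : drho y 0 = 0 := congrFun h 0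
    have h1 : drho y 1 = 0 := congrFun h 1
    have e0 : drho y 0 = y 0 := by simp [drho]
    have e1 : drho y 1 = y 1 := by simp [drho]
    rw [e0] at h0
    rw [e1] at h1
    rw [h0, h1] at hy
    norm_num at hy
  have hp : 0 < ∑ i, ∑ j, (Matrix.of a)⁻¹ i j * drho y i * drho y j :=
    inv_pos' (A := Matrix.of a) hA (fun j => drho y j) hw
  unfold Ph
  refine ContDiffAt.div (ContDiffAt.sum fun j _ => (hi k j).mul (hr j)) ?_ ?_
  · refine ContDiffAt.sqrt (ContDiffAt.sum fun i _ => ContDiffAt.sum fun j _ =>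
      ((hi i j).mul (hr i)).mul (hr j)) hp.ne'
  · exact (Real.sqrt_pos.mpr hp).ne'

/-- the mean curvature as a function of the 1-jet -/
def HH (y : Fin (m + 2) → ℝ) (q : (Fin (m + 2) → Fin (m + 2) → ℝ) ×
    (Fin (m + 2) → Fin (m + 2) → Fin (m + 2) → ℝ)) : ℝ :=
  ∑ k, (fderiv ℝ (Ph k) (q.1, y) (q.2 k, Pi.single k 1) +
    ∑ j, (∑ l, (Matrix.of q.1)⁻¹ k l * (q.2 k j l + q.2 j k l - q.2 l k j) / 2) * Ph j (q.1, y))

theorem meanCurv_eq (g : Coord (m + 2)) (hg : Met g) (y : Fin (m + 2) → ℝ)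
    (hy : y 0 ^ 2 + y 1 ^ 2 = 1) :
    meanCurv g y = HH y (g y, fun k i j => pd k (fun x => g x i j) y) := by
  unfold meanCurv HH
  refine Finset.sum_congr rfl fun k _ => ?_
  have h1 : pd k (nu g k) y = fderiv ℝ (Ph k) (g y, y)
      ((fun i j => pd k (fun x => g x i j) y), Pi.single k 1) := by
    have hP : DifferentiableAt ℝ (Ph k) (g y, y) :=
      (cda_Ph k (g y) y (hg.pos y) hy).differentiableAt (by simp)
    have hgy : HasFDerivAt (fun z : Fin (m + 2) → ℝ => (g z, z))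
        ((ContinuousLinearMap.pi fun i => ContinuousLinearMap.pi fun j =>
          fderiv ℝ (fun x => g x i j) y).prod (ContinuousLinearMap.id ℝ (Fin (m + 2) → ℝ))) y := by
      refine HasFDerivAt.prodMk ?_ (hasFDerivAt_id y)
      refine hasFDerivAt_pi.mpr fun i => hasFDerivAt_pi.mpr fun j => ?_
      exact (((hg.smooth i j).differentiable (by simp)) y).hasFDerivAt
    have hc := HasFDerivAt.comp (g := Ph k) (f := fun z : Fin (m + 2) → ℝ => (g z, z)) y
      hP.hasFDerivAt hgy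
    have e : nu g k = (Ph k) ∘ fun z : Fin (m + 2) → ℝ => (g z, z) := by
      funext z
      rfl
    unfold pd
    rw [e, hc.fderiv]
    rfl
  rw [h1]
  rfl

theorem HH_cont (a : Fin (m + 2) → Fin (m + 2) → ℝ) (b : Fin (m + 2) → Fin (m + 2) → Fin (m + 2) → ℝ)
    (y : Fin (m + 2) → ℝ)
    (hA : ∀ v : Fin (m + 2) → ℝ, v ≠ 0 → 0 < ∑ i, ∑ j, a i j * v i * v j)
    (hy : y 0 ^ 2 + y 1 ^ 2 = 1) : ContinuousAt (HH y) (a, b) := by
  have hd : (Matrix.of a).det ≠ 0 := H17.det_ne (A := Matrix.of a) hA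
  have c1 : ContinuousAt (fun q : (Fin (m + 2) → Fin (m + 2) → ℝ) ×
    (Fin (m + 2) → Fin (m + 2) → Fin (m + 2) → ℝ) => (q.1, y)) (a, b) := by fun_prop
  have c2 : ∀ k i j, ContinuousAt (fun q : (Fin (m + 2) → Fin (m + 2) → ℝ) ×
    (Fin (m + 2) → Fin (m + 2) → Fin (m + 2) → ℝ) => q.2 k i j) (a, b) := by
    intro k i j
    fun_prop
  have c3 : ∀ k l, ContinuousAt (fun q : (Fin (m + 2) → Fin (m + 2) → ℝ) ×
    (Fin (m + 2) → Fin (m + 2) → Fin (m + 2) → ℝ) => (Matrix.of q.1)⁻¹ k l) (a, b) := fun k l =>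
    ContinuousAt.comp (x := (a, b))
      (g := fun M : Fin (m + 2) → Fin (m + 2) → ℝ => (Matrix.of M)⁻¹ k l)
      (f := fun q : (Fin (m + 2) → Fin (m + 2) → ℝ) ×
        (Fin (m + 2) → Fin (m + 2) → Fin (m + 2) → ℝ) => q.1)
      (cda_inv a hd k l).continuousAt continuousAt_fst
  have c4 : ∀ k, ContinuousAt (fun q : (Fin (m + 2) → Fin (m + 2) → ℝ) ×
    (Fin (m + 2) → Fin (m + 2) → Fin (m + 2) → ℝ) => Ph k (q.1, y)) (a, b) := fun k =>
    ContinuousAt.comp (x := (a, b)) (g := Ph k) (cda_Ph k a y hA hy).continuousAt c1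
  have c5 : ∀ k, ContinuousAt (fun q : (Fin (m + 2) → Fin (m + 2) → ℝ) ×
    (Fin (m + 2) → Fin (m + 2) → Fin (m + 2) → ℝ) => fderiv ℝ (Ph k) (q.1, y)) (a, b) := fun k =>
    ContinuousAt.comp (x := (a, b)) (g := fderiv ℝ (Ph k))
      (((cda_Ph k a y hA hy).fderiv_right (m := 0) (by simp)).continuousAt) c1
  have c6 : ∀ k : Fin (m + 2), ContinuousAt (fun q : (Fin (m + 2) → Fin (m + 2) → ℝ) ×
    (Fin (m + 2) → Fin (m + 2) → Fin (m + 2) → ℝ) =>
      ((q.2 k, Pi.single k 1) : (Fin (m + 2) → Fin (m + 2) → ℝ) × (Fin (m + 2) → ℝ))) (a, b) := by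
    intro k
    fun_prop
  unfold HH
  refine tendsto_finsetSum _ fun k _ => ?_
  refine Filter.Tendsto.add ?_ ?_
  · exact (c5 k).clm_apply (c6 k)
  · refine tendsto_finsetSum _ fun j _ => ?_
    refine Filter.Tendsto.mul ?_ (c4 j)
    refine tendsto_finsetSum _ fun l _ => ?_
    refine Filter.Tendsto.div_const (Filter.Tendsto.mul (c3 k l) ?_) 2
    exact ((c2 k j l).add (c2 j k l)).sub (c2 l k j)

theorem mct : MctStmt := by
  intro m g₀ y η hg₀ hy hη
  have hc := HH_cont (g₀ y) (fun k i j => pd k (fun x => g₀ x i j) y) y (hg₀.pos y) hy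
  obtain ⟨δ, hδ, hb⟩ := Metric.continuousAt_iff.mp hc η hη
  refine ⟨δ / 2, by linarith, fun g hg hC => ?_⟩
  rw [meanCurv_eq g hg y hy, meanCurv_eq g₀ hg₀ y hy]
  have h2 : (0 : ℝ) ≤ δ / 2 := by linarith
  have hdist : dist ((g y, fun k i j => pd k (fun x => g x i j) y) :
      (Fin (m + 2) → Fin (m + 2) → ℝ) × (Fin (m + 2) → Fin (m + 2) → Fin (m + 2) → ℝ))
      (g₀ y, fun k i j => pd k (fun x => g₀ x i j) y) ≤ δ / 2 := by
    rw [Prod.dist_eq]
    refine max_le ?_ ?_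
    · refine (dist_pi_le_iff h2).mpr fun i => (dist_pi_le_iff h2).mpr fun j => ?_
      rw [Real.dist_eq]
      exact (hC i j).1
    · refine (dist_pi_le_iff h2).mpr fun k => (dist_pi_le_iff h2).mpr fun i =>
        (dist_pi_le_iff h2).mpr fun j => ?_
      rw [Real.dist_eq]
      exact (hC i j).2.1 k
  have h3 := hb (lt_of_le_of_lt hdist (by linarith))
  rw [Real.dist_eq] at h3
  exact h3.le

end Pool.Agent.BCS.H45
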